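import Pool.Agent.Helper26.AV.CL
import Pool.Agent.Helper48.TR.SimplePlus
import Pool.Agent.Helper21.OR.SimplePlus
import Pool.Agent.Helper54.FR.FB
import Pool.Agent.Helper21.FR.FD
import Pool.Agent.Helper2.FR.FN

/-!
Block FD3 of project FR (helper2): the Lie algebra of a block is full or there are at most two
eigenvalues.
-/

set_option linter.unusedSectionVars false
set_option linter.unusedVariables false

open Module

attribute [local instance 100] LieRing.ofAssociativeRing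

namespace FR

open MTP UN AV

section
variable {K : Type*} [Field K] [CharZero K] {W : Type*} [AddCommGroup W]
  [Module K W] [FiniteDimensional K W] {N h : Module.End K W}

private lemma diag_shift52 (hdiag : ⨆ q : ℚ, h.eigenspace (q : K) = ⊤) (c : ℚ) :
    ⨆ q : ℚ, (h - (c : K) • (1 : Module.End K W)).eigenspace (q : K) = ⊤ := by
  rw [eq_top_iff, ← hdiag]
  refine iSup_le fun q => le_iSup_of_le (q - c) ?_
  intro v hv
  rw [Module.End.mem_eigenspace_iff] at hv ⊢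
  rw [LinearMap.sub_apply, LinearMap.smul_apply, Module.End.one_apply, hv, ← sub_smul]
  push_cast
  rfl

private lemma nev_le52 {c : K} {a b : K}
    (hab : ∀ v, N v = 0 → ∃ w, (h - c • (1 : Module.End K W)) ((h - c • (1 : Module.End K W)) v) -
      (a + b) • (h - c • (1 : Module.End K W)) v + (a * b) • v = N w) :
    nev N h ≤ 2 := by
  rw [← nev_sub N h c]
  exact nev_le_two hab

private lemma nev_sq52 {c : K} {a : K}
    (hab : ∀ v, N v = 0 → ∃ w, (h - c • (1 : Module.End K W)) ((h - c • (1 : Module.End K W)) v) -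
      (a * a) • v = N w) :
    nev N h ≤ 2 := by
  refine nev_le52 (c := c) (a := a) (b := -a) fun v hv => ?_
  obtain ⟨w, hw⟩ := hab v hv
  refine ⟨w, ?_⟩
  rw [← hw]
  module

end

section
variable {K : Type*} [Field K] {V : Type*} [AddCommGroup V]
  [Module K V] [FiniteDimensional K V] {W : Submodule K V}

private lemma rw_mul52 {x y : Module.End K V} (hy : ∀ w ∈ W, y w ∈ W) :
    Rw W (x * y) = Rw W x * Rw W y := by
  ext w
  have h1 : ((Rw W y w : W) : V) = y w := Rw_coe hy w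
  change ((prj W (x (y w)) : W) : V) = ((prj W (x ((Rw W y w : W) : V)) : W) : V)
  rw [h1]

end

section
variable {K : Type*} [Field K] [CharZero K] [IsAlgClosed K] {V : Type*} [AddCommGroup V]
  [Module K V] [FiniteDimensional K V]
  {ω : LinearMap.BilinForm K V} {G : Set (Module.End K V)}
  {T : Set (Module.End K V ≃+* Module.End K V)} {p0 ε : Module.End K V} {W : Submodule K V}
  {N h : Module.End K V}

/-- FD3: the Lie algebra of a block is full or there are at most two eigenvalues. -/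
theorem full_or (U : MStr ω G T p0) (hp : Plc G T p0 N h) (hε : Bl (AA G T p0) ε)
    (hW : Irr (AA G T p0 : Set (Module.End K V)) W) (hWε : InB ε W)
    (hns : ∀ p ∈ SC G T p0, p * ε ≠ 0 ∧ p * ε ≠ ε) (hs : Smp (Lb G T p0 ε))
    (hN0 : N * ε ≠ 0) : FullB ω G T p0 ε ∨ nev (Rw W N) (Rw W h) ≤ 2 := by
  obtain ⟨hNN, hNA, hN, c, hc⟩ := plc_lb U hp hε
  obtain ⟨hNN', ⟨σ, hσ⟩, ⟨τ, hτ⟩, hdiag⟩ := plc_rw U hp hW
  obtain ⟨p, hpS, hpN, hNp, hph⟩ := hp.p
  have R := U.ssA.rs hε hW hWε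
  have hLB := U.lb_le hε
  have hbr : ∀ x ∈ Lb G T p0 ε, ∀ y ∈ Lb G T p0 ε, x * y - y * x ∈ Lb G T p0 ε :=
    fun x hx y hy => U.lb_br hε hx hy
  have hirr := U.irr_lb hε hW hWε
  have htr : ∀ x ∈ Lb G T p0 ε, LinearMap.trace K V x = 0 := fun x hx => U.lb_tr hε hx
  have hWnt : Nontrivial W := (Submodule.nontrivial_iff_ne_bot).mpr hW.ne
  have h' := CL.map_br R hLB hbr
  have hsimple := R.simple hLB hbr hirr htr hs hN hN0 h'
  have hirr' : ∀ U : Submodule K W, (∀ z ∈ (Lb G T p0 ε).map (Rw W), ∀ w ∈ U, z w ∈ U) →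
      U = ⊥ ∨ U = ⊤ := fun U hU => hirr U fun x hx w hw => hU _ ⟨x, hx, rfl⟩ w hw
  have htr' : ∀ z ∈ (Lb G T p0 ε).map (Rw W), LinearMap.trace K W z = 0 := by
    rintro _ ⟨x, hx, rfl⟩
    exact CL.tr_zero R (hLB hx) (htr x hx)
  have hρε : ∀ x : Module.End K V, Rw W (x * ε) = Rw W x := by
    intro x
    ext w
    change ((prj W (x (ε w)) : W) : V) = prj W (x w)
    rw [hWε w w.2]
  have hAe : ∀ x ∈ AA G T p0, x * ε ∈ Ae (AA G T p0) ε := fun x hx =>
    ⟨mul_mem hx hε.mem, by rw [mul_assoc, hε.idem]⟩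
  have hρ1 : Rw W (1 : Module.End K V) = 1 := by
    ext w
    change ((prj W (w : V) : W) : V) = w
    rw [prj_coe]
  have hpA := U.sc_mem hpS
  have hpe := hAe p hpA
  have hpst : ∀ w ∈ W, p w ∈ W := fun w hw => hW.st p hpA w hw
  have hNst : ∀ w ∈ W, N w ∈ W := fun w hw => hW.st N hNA w hw
  have hhst : ∀ w ∈ W, h w ∈ W := fun w hw => hW.st h hp.hA w hw
  have hP : Rw W p * Rw W p = Rw W p := by
    rw [← rw_mul52 hpst, U.c1 hpS]
  have h0 : Rw W p ≠ 0 := by
    intro h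
    exact (hns p hpS).1 (R.inj _ hpe (by rw [hρε, h]))
  have h1 : Rw W p ≠ 1 := by
    intro h
    have h2 : p * ε - 1 * ε = 0 := R.inj _ (sub_mem hpe (hAe 1 (one_mem _)))
      (by rw [map_sub, hρε, hρε, h, hρ1, sub_self])
    exact (hns p hpS).2 (by rw [sub_eq_zero.mp h2, one_mul])
  have hc' : ∀ c : K, (p - c • 1) * ε ∈ Lb G T p0 ε →
      Rw W p - c • 1 ∈ (Lb G T p0 ε).map (Rw W) := by
    intro c hc
    refine ⟨_, hc, ?_⟩
    rw [hρε, map_sub, map_smul, hρ1]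
  have hN' : Rw W N ∈ (Lb G T p0 ε).map (Rw W) := ⟨N * ε, hN, hρε N⟩
  have hN0' : Rw W N ≠ 0 := fun h => hN0 (R.inj _ (hLB hN) (by rw [hρε, h]))
  have hPN : Rw W p * Rw W N = Rw W N := by rw [← rw_mul52 hNst, hpN]
  have hNP : Rw W N * Rw W p = 0 := by rw [← rw_mul52 hpst, hNp, map_zero]
  have hPh : Rw W p * Rw W h = Rw W h * Rw W p := by
    rw [← rw_mul52 hhst, ← rw_mul52 hpst, hph]
  set h1' : Module.End K W := Rw W h - (c : K) • (1 : Module.End K W) with hh1'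
  have hh1 : h1' ∈ (Lb G T p0 ε).map (Rw W) :=
    ⟨_, hc, by rw [hρε, map_sub, map_smul, hρ1]⟩
  have hdiag1 : ⨆ q : ℚ, h1'.eigenspace (q : K) = ⊤ := diag_shift52 hdiag c
  have hσ1 : h1' * Rw W N = (σ - (c : K)) • Rw W N := by
    rw [hh1', sub_mul, hσ, smul_mul_assoc, one_mul]
    module
  have hτ1 : Rw W N * h1' = (τ - (c : K)) • Rw W N := by
    rw [hh1', mul_sub, hτ, mul_smul_comm, mul_one]
    module
  have hPh1 : Rw W p * h1' = h1' * Rw W p := by
    rw [hh1', mul_sub, sub_mul, hPh, mul_smul_comm, smul_mul_assoc, mul_one, one_mul]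
  by_cases hsd : SD ω ε
  · obtain ⟨b, hF, hsa⟩ := U.sd_form hε hsd hW hWε
    have hIS : IrrSymp b ((Lb G T p0 ε).map (Rw W)) := by
      refine ⟨h', ?_, hirr'⟩
      rintro _ ⟨x, hx, rfl⟩
      exact (hF.sk x (hLB hx).1 (hLB hx).2).1 (U.lb_sk hε hsd hx)
    have hcc := hc' _ (U.lb_half hε hsd hns hpS)
    have hfull : (∀ z, IsSk b z → z ∈ (Lb G T p0 ε).map (Rw W)) → FullB ω G T p0 ε := by
      intro hf x hx hxe ht hsk
      exact CL.mem_of_map R hLB ⟨hx, hxe⟩ (hf _ ((hF.sk x hx hxe).1 (hsk hsd)))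
    obtain ⟨hs2, hss⟩ := CL.involution hP hcc
    have hs0 : (2 : K) • Rw W p - 1 ≠ 0 := by
      intro h
      rw [h, mul_zero] at hss
      exact zero_ne_one hss
    have hctx := OR.ctx_of_inv (L := toLie ((Lb G T p0 ε).map (Rw W)) hIS.br) hIS hF.nd hsimple
      hs2 hss hs0
    rcases hsa with hsy | halt
    · rcases OR.simple_plus (L := toLie ((Lb G T p0 ε).map (Rw W)) hIS.br) hctx hsy hsimple
        hN' hNN' hN0' hh1 hdiag1 hσ1 with h2 | ⟨a, ha⟩
      · exact Or.inl (hfull h2)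
      · exact Or.inr (nev_sq52 ha)
    · rcases TR.simple_plus (L := toLie ((Lb G T p0 ε).map (Rw W)) hIS.br) hctx halt hsimple
        hN' hNN' hN0' hh1 hdiag1 hσ1 with h2 | ⟨a, ha⟩
      · exact Or.inl (hfull h2)
      · exact Or.inr (nev_sq52 ha)
  · obtain ⟨c2, hc2⟩ := U.lb_p hε hpS
    rcases lie_frob (L := toLie ((Lb G T p0 ε).map (Rw W)) h') hirr' htr' hsimple
      (fun b hb => U.nsd_form hε hsd hns hW hWε b fun x hx => hb _ ⟨x, hx, rfl⟩)
      hP h0 h1 (hc' c2 hc2) hN' hNN' hN0' hPN hNP hh1 hPh1 hdiag1 hσ1 hτ1 with h2 | ⟨a, b, hab⟩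
    · refine Or.inl ?_
      intro x hx hxe ht hsk
      exact CL.mem_of_map R hLB ⟨hx, hxe⟩ (h2 _ (CL.tr_zero R ⟨hx, hxe⟩ ht))
    · exact Or.inr (nev_le52 hab)

end

end FR
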